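import Mathlib
import Pool.Agent.Helper34.R9.Sheet
import Pool.Agent.Helper29.R8.PAIR

/-! # Rows RES1, RES3 -/

set_option autoImplicit false

namespace Pool.Helper34.R9

open Pool.Helper17.R8 Polynomial

namespace S66

section
variable {R : Type*} [CommRing R]

theorem deg_pI (e : ℕ → R) : (pI e).natDegree ≤ 3 := by
  obtain ⟨b, c, d, hb⟩ := Pool.Helper29.R8.pI_eq e
  rw [hb]
  compute_degree

theorem deg_pJ (e : ℕ → R) : (pJ e).natDegree ≤ 5 := by
  obtain ⟨Q, hQ, h⟩ := Pool.Helper29.R8.pJ_eq e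
  rw [h]
  refine (natDegree_add_le _ _).trans (max_le ?_ (hQ.trans (by norm_num)))
  compute_degree

end

section
variable {R S : Type*} [CommRing R] [CommRing S] (φ : R →+* S)

theorem map_pI (e : ℕ → R) : (pI e).map φ = pI (fun k => φ (e k)) := by
  unfold pI fI q4 q3 q2 q1 q0
  simp [Polynomial.map_add, Polynomial.map_sub, Polynomial.map_mul, Polynomial.map_pow]

theorem map_pJ (e : ℕ → R) : (pJ e).map φ = pJ (fun k => φ (e k)) := by
  unfold pJ fJ q4 q3 q2 q1 q0
  simp [Polynomial.map_add, Polynomial.map_sub, Polynomial.map_mul, Polynomial.map_pow]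

end

end S66

open S66

theorem st_RES1 : ST_RES1 := by
  intro e t n h1 h2
  obtain ⟨p, q, _, _, h⟩ := exists_mul_add_mul_eq_C_resultant (m := 3) (n := 5) (pI e) (pJ e)
    (deg_pI e) (deg_pJ e) (Or.inl (by norm_num))
  have h3 := congrArg (Polynomial.eval t) h
  rw [eval_add, eval_mul, eval_mul, eval_C, Pool.Helper29.R8.eval_pI,
    Pool.Helper29.R8.eval_pJ] at h3
  have : rho e = fI e t * p.eval t + fJ e t * q.eval t := h3.symm
  rw [this]
  exact dvd_add (h1.mul_right _) (h2.mul_right _)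

theorem st_RES3 : ST_RES3 := by
  intro p e hp h48 h1728 hc h0
  have : Fact p.Prime := ⟨hp⟩
  have h1 : resultant ((pI e).map (Int.castRingHom (ZMod p))) ((pJ e).map (Int.castRingHom (ZMod p)))
      3 5 = 0 := by
    rw [resultant_map_map]
    have : resultant (pI e) (pJ e) 3 5 = 0 := h0
    rw [this, map_zero]
  rw [map_pI, map_pJ] at h1
  set e' : ℕ → ZMod p := fun k => (e k : ZMod p) with he'
  change resultant (pI e') (pJ e') 3 5 = 0 at h1
  have hd1 : (pI e').natDegree = 3 := by
    obtain ⟨b, c, d, hb⟩ := Pool.Helper29.R8.pI_eq e'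
    rw [hb]
    refine natDegree_cubic ?_
    push_cast at h48
    exact h48
  have hd2 : (pJ e').natDegree = 5 := by
    obtain ⟨Q, hQ, h⟩ := Pool.Helper29.R8.pJ_eq e'
    have h17 : (1728 : ZMod p) ≠ 0 := by
      push_cast at h1728
      exact h1728
    have h0 : (C (1728 : ZMod p) * X ^ 5).natDegree = 5 := natDegree_C_mul_X_pow 5 _ h17
    rw [h, natDegree_add_eq_left_of_natDegree_lt (by rw [h0]; omega), h0]
  have := resultant_ne_zero (pI e') (pJ e') hc
  rw [hd1, hd2] at this
  exact this h1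

end Pool.Helper34.R9
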