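import Mathlib
import Pool.Agent.Helper34.R9.SheetB
import Pool.Agent.Helper66.R8.REL

/-! # Row RHOB -/

set_option autoImplicit false

namespace Pool.Helper34.R9

open Pool.Helper17.R8 Polynomial

namespace S66

theorem ekm (p : ℕ) (u v : Fin 6 → ℤ) (h : ∀ i, (p : ℤ) ∣ u i - v i) (k : ℕ) :
    ((ek (ss u) k : ℤ) : ZMod p) = ((ek (ss v) k : ℤ) : ZMod p) := by
  have hu : (fun i => (Int.castRingHom (ZMod p)) (u i)) =
      (fun i => (Int.castRingHom (ZMod p)) (v i)) := by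
    funext i
    have := (ZMod.intCast_zmod_eq_zero_iff_dvd (u i - v i) p).2 (h i)
    simpa [sub_eq_zero] using this
  have h1 := congrFun (Pool.Helper66.R8REL.map_ekss (Int.castRingHom (ZMod p)) u) k
  have h2 := congrFun (Pool.Helper66.R8REL.map_ekss (Int.castRingHom (ZMod p)) v) k
  rw [hu] at h1
  have h3 := h1.trans h2.symm
  simpa using h3

end S66

open S66 in
theorem st_RHOB (hR : ST_RELB) (h3 : ST_RES3) : ST_RHOB := by
  intro a
  have hc : ∀ i, ((7 : ℕ) : ℤ) ∣ uB a i - ub i := fun i =>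
    (dvd_MB 7 (by norm_num) (by unfold QB; norm_num)).trans ((hR 0 (a, 0)).1 i)
  have E2 : ((ek (ss (uB a)) 2 : ℤ) : ZMod 7) = 4 := by
    rw [ekm 7 _ _ hc, Pool.Helper66.R8REL.e2]; decide
  have E3 : ((ek (ss (uB a)) 3 : ℤ) : ZMod 7) = 1 := by
    rw [ekm 7 _ _ hc, Pool.Helper66.R8REL.e3]; decide
  have E4 : ((ek (ss (uB a)) 4 : ℤ) : ZMod 7) = 2 := by
    rw [ekm 7 _ _ hc, Pool.Helper66.R8REL.e4]; decide
  have E5 : ((ek (ss (uB a)) 5 : ℤ) : ZMod 7) = 4 := by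
    rw [ekm 7 _ _ hc, Pool.Helper66.R8REL.e5]; decide
  have E6 : ((ek (ss (uB a)) 6 : ℤ) : ZMod 7) = 0 := by
    rw [ekm 7 _ _ hc, Pool.Helper66.R8REL.e6]; decide
  have E7 : ((ek (ss (uB a)) 7 : ℤ) : ZMod 7) = 2 := by
    rw [ekm 7 _ _ hc, Pool.Helper66.R8REL.e7]; decide
  have E8 : ((ek (ss (uB a)) 8 : ℤ) : ZMod 7) = 0 := by
    rw [ekm 7 _ _ hc, Pool.Helper66.R8REL.e8]; decide
  refine h3 7 (ek (ss (uB a))) (by norm_num) ?_ (by decide) ?_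
  · push_cast
    rw [E2]
    decide
  · have h7 : (7 : (ZMod 7)[X]) = 0 := by
      have : ((7 : ℕ) : (ZMod 7)[X]) = 0 := CharP.cast_eq_zero _ 7
      exact_mod_cast this
    refine ⟨3 + 2 * X + 6 * X ^ 2 + 4 * X ^ 3 + 3 * X ^ 4, 1 + X + 2 * X ^ 2, ?_⟩
    unfold pI pJ fI fJ q4 q3 q2 q1 q0
    simp only [E2, E3, E4, E5, E6, E7, E8, map_zero, map_one, map_ofNat]
    linear_combination ((-119) * X ^ 0 + (-896) * X ^ 1 + (-1824) * X ^ 2 + (-2048) * X ^ 3 + (-592) * X ^ 4 + (1392) * X ^ 5 + (1536) * X ^ 6 + (576) * X ^ 7) * h7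

end Pool.Helper34.R9
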